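import Mathlib
import Pool.Agent.H28.ExpPoly

set_option autoImplicit false

open Filter Topology Complex Set
open scoped NNReal

namespace Pool.Agent.Results.MP_84e5ad_an.OrbitIndependent

open Pool.Agent.H28.ExpPoly

theorem core {X : Type*} [NormedAddCommGroup X] [NormedSpace ℝ X] [CompleteSpace X]
    {ι : Type*} [Fintype ι] (T : ℝ → X →L[ℝ] X) (hT0 : ∀ x, T 0 x = x)
    (hadd : ∀ s t, 0 ≤ s → 0 ≤ t → ∀ x, T (s + t) x = T s (T t x))
    (hcont : ∀ x, Continuous (fun s => T s x)) (φ : X →L[ℝ] ℂ)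
    (t : ι → ℝ) (a : ι → ℂ) (i0 i1 : ι) (h0 : t i0 = 0) (ha0 : a i0 ≠ 0)
    (ha1 : a i1 ≠ 0) (hpos : ∀ i, i ≠ i0 → 0 < t i) (hmax : ∀ i, i ≠ i1 → t i < t i1)
    (hrel : ∀ x, ∑ i, a i * φ (T (t i) x) = 0)
    (hno : ∀ (ψ : X →L[ℝ] ℂ) (μ : ℂ), (∀ s : ℝ, 0 ≤ s → ∀ x, ψ (T s x) = exp (μ * s) * ψ x) → ψ = 0) :
    φ = 0 := by
  have ht0 : ∀ i, 0 ≤ t i := fun i => by
    by_cases h : i = i0
    · rw [h, h0]
    · exact (hpos i h).le
  have ht1 : ∀ i, t i ≤ t i1 := fun i => by
    by_cases h : i = i1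
    · rw [h]
    · exact (hmax i h).le
  let p : ℂ → ℂ := fun z => ∑ i, a i * exp (z * t i)
  let E : ℂ → X → ℝ → ℂ := fun z x c => ∫ r in (0 : ℝ)..c, exp (-z * r) * φ (T r x)
  let b : X → ℂ → ℂ := fun x z => ∑ i, a i * exp (z * t i) * E z x (t i)
  have hu : ∀ x, Continuous (fun r => φ (T r x)) := fun x => φ.continuous.comp (hcont x)
  have hf : ∀ (z : ℂ) x, Continuous (fun r : ℝ => exp (-z * r) * φ (T r x)) := fun z x => by
    have := hu x; fun_prop
  have hEd : ∀ x c, Differentiable ℂ (fun z => E z x c) := fun x c => differentiable_laplace _ (hu x) c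
  have hpd : Differentiable ℂ p := by simp only [p]; fun_prop
  have hbd : ∀ x, Differentiable ℂ (b x) := by
    intro x
    simp only [b]
    exact Differentiable.fun_sum (fun i _ => Differentiable.mul (by fun_prop) (hEd x _))
  have hid : ∀ (s : ℝ), 0 ≤ s → ∀ x z,
      exp (z * s) * b x z - b (T s x) z = p z * (exp (z * s) * E z x s) := by
    intro s hs x z
    let f : ℝ → ℂ := fun r => exp (-z * r) * φ (T r x)
    have hfi : ∀ u v, IntervalIntegrable f MeasureTheory.volume u v := fun u v =>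
      (hf z x).intervalIntegrable u v
    have e1 : ∀ c, 0 ≤ c → E z (T s x) c = exp (z * s) * ∫ r in s..(c + s), f r := by
      intro c hc
      have := intervalIntegral.integral_comp_add_right (a := 0) (b := c) f s
      rw [zero_add] at this
      rw [← this, ← intervalIntegral.integral_const_mul]
      refine intervalIntegral.integral_congr (fun r hr => ?_)
      rw [uIcc_of_le hc] at hr
      simp only [f]
      rw [hadd r s hr.1 hs, ← mul_assoc, ← exp_add]
      push_cast
      congr 2; ring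
    have e2 : ∀ c : ℝ, 0 ≤ c → exp (z * c) * ∫ r in c..(c + s), f r
        = ∫ r in (0 : ℝ)..s, exp (-z * r) * φ (T c (T r x)) := by
      intro c hc
      have := intervalIntegral.integral_comp_add_left (a := 0) (b := s) f c
      rw [add_zero] at this
      rw [← this, ← intervalIntegral.integral_const_mul]
      refine intervalIntegral.integral_congr (fun r hr => ?_)
      rw [uIcc_of_le hs] at hr
      simp only [f]
      rw [hadd c r hc hr.1, ← mul_assoc, ← exp_add]
      push_cast
      congr 2; ring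
    have e3 : ∑ i, a i * (exp (z * t i) * ∫ r in (t i)..(t i + s), f r) = 0 := by
      simp only [e2 _ (ht0 _)]
      simp only [← intervalIntegral.integral_const_mul]
      rw [← intervalIntegral.integral_finset_sum]
      · have : ∀ r : ℝ, ∑ i, a i * (exp (-z * r) * φ (T (t i) (T r x))) = 0 := by
          intro r
          have := hrel (T r x)
          simp only [mul_left_comm (a _), ← Finset.mul_sum, this, mul_zero]
        simp only [this, intervalIntegral.integral_zero]
      · intro i _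
        have := (φ.continuous.comp (T (t i)).continuous).comp (hcont x)
        exact (continuous_const.mul (Continuous.mul (by fun_prop) this)).intervalIntegrable _ _
    have e4 : ∀ c, E z x c - ∫ r in s..(c + s), f r = E z x s - ∫ r in c..(c + s), f r := by
      intro c
      have h1 := intervalIntegral.integral_add_adjacent_intervals (hfi 0 c) (hfi c (c + s))
      have h2 := intervalIntegral.integral_add_adjacent_intervals (hfi 0 s) (hfi s (c + s))
      simp only [E]
      linear_combination h1 - h2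
    show exp (z * s) * ∑ i, a i * exp (z * t i) * E z x (t i) - ∑ i, a i * exp (z * t i) * E z (T s x) (t i)
      = (∑ i, a i * exp (z * t i)) * (exp (z * s) * E z x s)
    rw [Finset.mul_sum, Finset.sum_mul, ← Finset.sum_sub_distrib]
    rw [← sub_zero (∑ i, a i * exp (z * t i) * (exp (z * s) * E z x s)), ← mul_zero (exp (z * s)), ← e3,
      Finset.mul_sum, ← Finset.sum_sub_distrib]
    refine Finset.sum_congr rfl (fun i _ => ?_)
    rw [e1 _ (ht0 i)]
    linear_combination (exp (z * s) * a i * exp (z * t i)) * e4 (t i)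
  obtain ⟨M, hM⟩ := banach_steinhaus (g := fun r : Icc (0 : ℝ) (t i1) => T r) (fun x => by
    obtain ⟨C, hC⟩ := (isCompact_Icc (a := (0 : ℝ)) (b := t i1)).exists_bound_of_continuousOn
      (hcont x).continuousOn
    exact ⟨C, fun r => hC r r.2⟩)
  have hM0 : 0 ≤ M := (norm_nonneg _).trans (hM ⟨0, le_rfl, ht0 _⟩)
  have hbb : ∀ x z, ‖b x z‖ ≤ (∑ i, ‖a i‖ * (‖φ‖ * M * t i)) * ‖x‖ * max 1 (Real.exp (z.re * t i1)) := by
    intro x z
    simp only [b, Finset.sum_mul]
    refine (norm_sum_le _ _).trans (Finset.sum_le_sum (fun i _ => ?_))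
    rw [mul_assoc, norm_mul, ← intervalIntegral.integral_const_mul, mul_assoc, mul_assoc]
    refine mul_le_mul_of_nonneg_left ?_ (norm_nonneg _)
    refine (intervalIntegral.norm_integral_le_of_norm_le_const
      (C := max 1 (Real.exp (z.re * t i1)) * (‖φ‖ * (M * ‖x‖))) (fun r hr => ?_)).trans (le_of_eq ?_)
    · rw [uIoc_of_le (ht0 i)] at hr
      rw [← mul_assoc, ← exp_add, norm_mul, norm_exp]
      have h1 : ‖φ (T r x)‖ ≤ ‖φ‖ * (M * ‖x‖) :=
        (φ.le_opNorm _).trans (mul_le_mul_of_nonneg_left (((T r).le_opNorm x).trans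
          (mul_le_mul_of_nonneg_right (hM ⟨r, hr.1.le, hr.2.trans (ht1 i)⟩) (norm_nonneg _))) (norm_nonneg _))
      refine mul_le_mul ?_ h1 (norm_nonneg _) (by positivity)
      have e : (z * t i + -z * r : ℂ).re = z.re * (t i - r) := by simp; ring
      rw [e]
      rcases le_total z.re 0 with h | h
      · exact le_max_of_le_left (Real.exp_le_one_iff.2 (mul_nonpos_of_nonpos_of_nonneg h (by linarith [hr.2])))
      · exact le_max_of_le_right (Real.exp_le_exp.2 (mul_le_mul_of_nonneg_left (by linarith [hr.1, ht1 i]) h))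
    · rw [sub_zero, abs_of_nonneg (ht0 i)]; ring
  let Bl : ℂ → X →ₗ[ℝ] ℂ := fun z =>
    { toFun := fun x => b x z
      map_add' := fun x y => by
        simp only [b, E, map_add, mul_add, ← Finset.sum_add_distrib]
        refine Finset.sum_congr rfl (fun i _ => ?_)
        rw [intervalIntegral.integral_add ((hf z x).intervalIntegrable _ _) ((hf z y).intervalIntegrable _ _),
          mul_add]
      map_smul' := fun c x => by
        simp only [b, E, map_smul, real_smul, RingHom.id_apply, Finset.mul_sum, mul_left_comm _ (c : ℂ),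
          intervalIntegral.integral_const_mul] }
  let B : ℂ → X →L[ℝ] ℂ := fun z => (Bl z).mkContinuous
    ((∑ i, ‖a i‖ * (‖φ‖ * M * t i)) * max 1 (Real.exp (z.re * t i1))) (fun x => by
      have := hbb x z
      rw [mul_right_comm] at this
      exact this)
  have hB : ∀ z x, B z x = b x z := fun z x => rfl
  obtain ⟨R, hR⟩ := left_bound t a i0 h0 ha0 hpos
  have hpR : ∀ z : ℂ, z.re ≤ -R → p z ≠ 0 := by
    intro z hz h
    have h1 := hR z hz
    simp only [p] at h
    rw [h, norm_zero] at h1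
    linarith [norm_pos_iff.2 ha0]
  have hloc : ∀ z0, ∃ (N : ℕ) (q : ℂ → ℂ), AnalyticAt ℂ q z0 ∧ q z0 ≠ 0 ∧
      (∀ᶠ z in 𝓝 z0, p z = (z - z0) ^ N * q z) ∧
      ∀ x, ∃ h : ℂ → ℂ, AnalyticAt ℂ h z0 ∧ ∀ᶠ z in 𝓝 z0, b x z = (z - z0) ^ N * h z := by
    intro z0
    obtain ⟨N, q, hq, hq0, hpq⟩ := (hpd.analyticAt z0).exists_eventuallyEq_pow_smul_nonzero_iff.2 (by
      intro h
      have han : AnalyticOnNhd ℂ p univ := fun z _ => hpd.analyticAt z
      exact hpR (-R) (by simp) (han.eqOn_zero_of_preconnected_of_eventuallyEq_zero isPreconnected_univ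
        (mem_univ z0) h (mem_univ _)))
    simp only [smul_eq_mul] at hpq
    refine ⟨N, q, hq, hq0, hpq, ?_⟩
    suffices H : ∀ k, k ≤ N → ∀ x, ∃ h : ℂ → ℂ, AnalyticAt ℂ h z0 ∧
        ∀ᶠ z in 𝓝 z0, b x z = (z - z0) ^ k * h z from H N le_rfl
    intro k
    induction k with
    | zero => intro _ x; exact ⟨b x, (hbd x).analyticAt z0, by simp⟩
    | succ k ih =>
      intro hk
      choose h hh hb using ih (by omega)
      have hlim : ∀ x, Tendsto (fun z => (((z - z0) ^ k)⁻¹ • B z) x) (𝓝[≠] z0) (𝓝 (h x z0)) := by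
        intro x
        refine ((hh x).continuousAt.tendsto.mono_left nhdsWithin_le_nhds).congr' ?_
        filter_upwards [nhdsWithin_le_nhds (hb x), self_mem_nhdsWithin] with z h1 h2
        have h3 : (z - z0) ^ k ≠ 0 := pow_ne_zero _ (sub_ne_zero.2 h2)
        rw [ContinuousLinearMap.smul_apply, hB, h1, smul_eq_mul, inv_mul_cancel_left₀ h3]
      let ψ : X →L[ℝ] ℂ := continuousLinearMapOfTendsto (l := 𝓝[≠] z0)
        (fun z => ((z - z0) ^ k)⁻¹ • B z) (f := fun x => h x z0) (tendsto_pi_nhds.2 hlim)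
      have hψ : ∀ x, ψ x = h x z0 := fun x => rfl
      have hψ0 : ψ = 0 := by
        apply hno ψ z0
        intro s hs x
        rw [hψ, hψ]
        obtain ⟨m, rfl⟩ := Nat.exists_eq_add_of_le hk
        have l1 : Tendsto (fun z => exp (z * s) * h x z - h (T s x) z) (𝓝[≠] z0)
            (𝓝 (exp (z0 * s) * h x z0 - h (T s x) z0)) :=
          ((ContinuousAt.mul (by fun_prop) (hh x).continuousAt).sub
            (hh _).continuousAt).tendsto.mono_left nhdsWithin_le_nhds
        have l2 : Tendsto (fun z => (z - z0) ^ (1 + m) * q z * (exp (z * s) * E z x s)) (𝓝[≠] z0)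
            (𝓝 ((z0 - z0) ^ (1 + m) * q z0 * (exp (z0 * s) * E z0 x s))) :=
          ((ContinuousAt.mul (by fun_prop) hq.continuousAt).mul (ContinuousAt.mul (by fun_prop)
            (hEd x s).continuous.continuousAt)).tendsto.mono_left nhdsWithin_le_nhds
        have l3 := tendsto_nhds_unique_of_eventuallyEq l1 l2 (by
          filter_upwards [nhdsWithin_le_nhds (hb x), nhdsWithin_le_nhds (hb (T s x)),
            nhdsWithin_le_nhds hpq, self_mem_nhdsWithin] with z h1 h2 h3 h4
          have h5 : (z - z0) ^ k ≠ 0 := pow_ne_zero _ (sub_ne_zero.2 h4)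
          have h6 := hid s hs x z
          rw [h1, h2, h3] at h6
          apply mul_left_cancel₀ h5
          rw [add_assoc, pow_add] at h6
          linear_combination h6)
        rw [sub_self, zero_pow (by omega), zero_mul, zero_mul] at l3
        exact (sub_eq_zero.1 l3).symm
      intro x
      have hx0 : h x z0 = 0 := by rw [← hψ, hψ0]; rfl
      obtain ⟨pw, hpw⟩ := hh x
      refine ⟨dslope (h x) z0, ⟨_, hpw.has_fpower_series_dslope_fslope⟩, ?_⟩
      filter_upwards [hb x] with z hz
      have := sub_smul_dslope (h x) z0 z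
      rw [hx0, sub_zero, smul_eq_mul] at this
      rw [hz, pow_succ, mul_assoc, this]
  have hc : ∀ x, ∃ c, ∀ z, b x z = c * p z := by
    intro x
    obtain ⟨g, hg, hgp⟩ := exists_div (b x) p (fun z0 => by
      obtain ⟨N, q, hq, hq0, hpq, H⟩ := hloc z0
      obtain ⟨h, hh, hb⟩ := H x
      exact ⟨N, h, q, hh, hq, hq0, hb, hpq⟩)
    obtain ⟨c, hc⟩ := const_of_div t a i0 i1 h0 ha0 ha1 hpos hmax g hg _ (fun z => by
      have := hbb x z
      rw [← hgp z] at this
      exact this)
    exact ⟨c, fun z => by rw [← hgp z, hc z]⟩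
  choose c hc using hc
  have hW : ∀ x (z : ℂ), z.re ≤ -R → HasDerivWithinAt (fun s : ℝ => c (T s x)) (z * c x - φ x) (Ici 0) 0 := by
    intro x z hz
    have h1 : HasDerivAt (fun s : ℝ => E z x s) (exp (-z * (0 : ℝ)) * φ (T 0 x)) 0 :=
      ((hf z x).integral_hasStrictDerivAt 0 0).hasDerivAt
    have h2 : HasDerivAt (fun s : ℝ => exp (z * s)) (exp (z * (0 : ℝ)) * (z * 1)) 0 :=
      (((hasDerivAt_id ((0 : ℝ) : ℂ)).const_mul z).cexp).comp_ofReal
    have h3 := h2.mul (h1.const_sub (c x))
    have e : ∀ s : ℝ, 0 ≤ s → c (T s x) = exp (z * s) * (c x - E z x s) := by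
      intro s hs
      have h4 := hid s hs x z
      rw [hc, hc] at h4
      apply mul_left_cancel₀ (hpR z hz)
      linear_combination -h4
    refine (h3.hasDerivWithinAt.congr (fun s hs => e s hs) (e 0 le_rfl)).congr_deriv ?_
    simp [E, hT0]; ring
  have hc0 : ∀ x, c x = 0 := by
    intro x
    have := (uniqueDiffWithinAt_Ici (0 : ℝ)).eq_deriv _ (hW x (-R) (by simp)) (hW x (-R - 1) (by simp))
    linear_combination this
  ext x
  have h1 := hW x (-R) (by simp)
  simp only [hc0] at h1
  have := (uniqueDiffWithinAt_Ici (0 : ℝ)).eq_deriv _ h1 (hasDerivWithinAt_const _ _ _)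
  simpa using this

/-- the embedding of the scalar field into the complex numbers -/
noncomputable def emb (𝕜 : Type*) [RCLike 𝕜] : 𝕜 →L[ℝ] ℂ :=
  ofRealCLM.comp RCLike.reCLM + I • ofRealCLM.comp RCLike.imCLM

theorem emb_apply {𝕜 : Type*} [RCLike 𝕜] (z : 𝕜) :
    emb 𝕜 z = (RCLike.re z : ℂ) + I * (RCLike.im z : ℂ) := by simp [emb]

theorem emb_mul {𝕜 : Type*} [RCLike 𝕜] (z w : 𝕜) : emb 𝕜 (z * w) = emb 𝕜 z * emb 𝕜 w := by
  simp only [emb_apply, RCLike.mul_re, RCLike.mul_im]
  push_cast
  linear_combination (-(RCLike.im z : ℂ) * RCLike.im w) * I_mul_I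

theorem emb_ne {𝕜 : Type*} [RCLike 𝕜] {z : 𝕜} (h : z ≠ 0) : emb 𝕜 z ≠ 0 := by
  intro h0
  rw [emb_apply] at h0
  have h1 := congrArg re h0
  have h2 := congrArg im h0
  simp at h1 h2
  exact h (RCLike.ext (by simpa using h1) (by simpa using h2))

theorem result (𝕜 : Type*) [RCLike 𝕜] (X : Type*) [NormedAddCommGroup X] [NormedSpace 𝕜 X]
    [CompleteSpace X] [TopologicalSpace.SeparableSpace X] (hinf : ¬ FiniteDimensional 𝕜 X)
    (T : ℝ≥0 → X →L[𝕜] X) (hT0 : T 0 = 1) (hadd : ∀ s t, T (s + t) = T s * T t)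
    (hcont : ∀ x, Continuous (fun t => T t x)) (z : X) (hz : DenseRange (fun t => T t z)) :
    LinearIndependent 𝕜 (fun t => T t z) := by
  classical
  letI : NormedSpace ℝ X := NormedSpace.restrictScalars ℝ 𝕜 X
  letI : IsScalarTower ℝ 𝕜 X := RestrictScalars.isScalarTower ℝ 𝕜 X
  rw [linearIndependent_iff']
  intro s g hs i hi
  by_contra hgi
  let S := s.filter (fun j => g j ≠ 0)
  have hSne : S.Nonempty := ⟨i, Finset.mem_filter.2 ⟨hi, hgi⟩⟩
  have hS : ∑ j ∈ S, g j • T j z = 0 := by
    rw [← hs]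
    exact Finset.sum_filter_of_ne (fun j _ h h0 => h (by rw [h0, zero_smul]))
  let m := S.min' hSne
  have hm : ∀ j ∈ S, m ≤ j := fun j hj => S.min'_le j hj
  have hcomm : ∀ s t x, T s (T t x) = T t (T s x) := fun s t x => by
    rw [← ContinuousLinearMap.mul_apply, ← hadd, add_comm, hadd, ContinuousLinearMap.mul_apply]
  -- the tail of the orbit is dense
  have htail : DenseRange (fun t => T (m + t) z) := by
    have hK : IsCompact ((fun t => T t z) '' Icc 0 m) := isCompact_Icc.image (hcont z)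
    have hint : Dense ((fun t => T t z) '' Icc 0 m)ᶜ := by
      rw [← interior_eq_empty_iff_dense_compl]
      by_contra hne
      obtain ⟨x, hx⟩ := nonempty_iff_ne_empty.2 hne
      haveI := hK.locallyCompactSpace_of_mem_nhds_of_addGroup (mem_interior_iff_mem_nhds.1 hx)
      exact hinf (FiniteDimensional.of_locallyCompactSpace 𝕜)
    refine (hz.inter_of_isOpen_right hint hK.isClosed.isOpen_compl).mono ?_
    rintro _ ⟨⟨t, rfl⟩, ht⟩
    have : m ≤ t := by
      by_contra h
      exact ht ⟨t, ⟨zero_le, (not_le.1 h).le⟩, rfl⟩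
    exact ⟨t - m, by simp only [add_tsub_cancel_of_le this]⟩
  have hA : ∀ x, ∑ j ∈ S, g j • T (j - m) x = 0 := by
    intro x
    refine htail.induction_on x (isClosed_eq (by fun_prop) continuous_const) (fun t => ?_)
    have := congrArg (T t) hS
    rw [map_zero, map_sum] at this
    rw [← this]
    refine Finset.sum_congr rfl (fun j hj => ?_)
    rw [map_smul, hcomm t, ← ContinuousLinearMap.mul_apply, ← ContinuousLinearMap.mul_apply, ← hadd,
      ← hadd, ← add_assoc, tsub_add_cancel_of_le (hm j hj)]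
  haveI : Nontrivial X := by
    by_contra h
    rw [not_nontrivial_iff_subsingleton] at h
    exact hinf inferInstance
  obtain ⟨v, hv⟩ := exists_ne (0 : X)
  obtain ⟨φ0, -, hφ0⟩ := exists_dual_vector 𝕜 v (norm_ne_zero_iff.2 hv)
  let T' : ℝ → X →L[ℝ] X := fun r => (T r.toNNReal).restrictScalars ℝ
  have hT' : ∀ (t : ℝ≥0) x, T' t x = T t x := fun t x => by simp [T']
  have key := core (ι := S) T' (fun x => by simp [T', hT0])
    (fun s t hs ht x => by simp [T', Real.toNNReal_add hs ht, hadd])
    (fun x => (hcont x).comp continuous_real_toNNReal) ((emb 𝕜).comp (φ0.restrictScalars ℝ))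
    (fun j => ((j.1 - m : ℝ≥0) : ℝ)) (fun j => emb 𝕜 (g j)) ⟨m, S.min'_mem hSne⟩ ⟨S.max' hSne, S.max'_mem hSne⟩
    (by simp) (emb_ne (Finset.mem_filter.1 (S.min'_mem hSne)).2)
    (emb_ne (Finset.mem_filter.1 (S.max'_mem hSne)).2)
    (fun j hj => by
      have h1 : m < j.1 := lt_of_le_of_ne (hm j.1 j.2) (fun h => hj (Subtype.ext h.symm))
      exact_mod_cast tsub_pos_of_lt h1)
    (fun j hj => by
      have h1 : j.1 < S.max' hSne := lt_of_le_of_ne (S.le_max' j.1 j.2) (fun h => hj (Subtype.ext h))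
      exact_mod_cast tsub_lt_tsub_right_of_le (hm j.1 j.2) h1)
    (fun x => by
      have := congrArg (fun y => emb 𝕜 (φ0 y)) (hA x)
      simp only [map_zero, map_sum, map_smul, smul_eq_mul, emb_mul] at this
      rw [← this, ← Finset.sum_coe_sort S]
      exact Finset.sum_congr rfl (fun j _ => by rw [hT']; rfl))
    (fun ψ μ hψ => by
      by_contra hne
      obtain ⟨w, hw⟩ : ∃ w, ψ w ≠ 0 := by
        by_contra h
        push Not at h
        exact hne (ContinuousLinearMap.ext h)
      have hn : ∀ t : ℝ≥0, ‖ψ (T t z)‖ = Real.exp (μ.re * t) * ‖ψ z‖ := by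
        intro t
        rw [← hT', hψ t t.2, norm_mul, norm_exp]; simp
      rcases le_total μ.re 0 with h | h
      · have h1 : ∀ x, ‖ψ x‖ ≤ ‖ψ z‖ := by
          intro x
          refine hz.induction_on x (isClosed_le (by fun_prop) continuous_const) (fun t => ?_)
          rw [hn]
          exact mul_le_of_le_one_left (norm_nonneg _)
            (Real.exp_le_one_iff.2 (mul_nonpos_of_nonpos_of_nonneg h t.2))
        have h2 := h1 (((‖ψ z‖ + 1) / ‖ψ w‖) • w)
        have h3 := norm_pos_iff.2 hw
        rw [map_smul, norm_smul, Real.norm_of_nonneg (by positivity), div_mul_cancel₀ _ h3.ne'] at h2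
        linarith
      · have h1 : ∀ x, ‖ψ z‖ ≤ ‖ψ x‖ := by
          intro x
          refine hz.induction_on x (isClosed_le continuous_const (by fun_prop)) (fun t => ?_)
          rw [hn]
          exact le_mul_of_one_le_left (norm_nonneg _) (Real.one_le_exp (mul_nonneg h t.2))
        have h2 := h1 0
        rw [map_zero, norm_zero] at h2
        have h3 : ∀ x, ‖ψ x‖ ≤ 0 := by
          intro x
          refine hz.induction_on x (isClosed_le (by fun_prop) continuous_const) (fun t => ?_)
          rw [hn, le_antisymm h2 (norm_nonneg _), mul_zero]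
        exact hw (norm_le_zero_iff.1 (h3 w)))
  have h1 := congrArg (fun f => f v) key
  simp only [ContinuousLinearMap.comp_apply, ContinuousLinearMap.coe_restrictScalars', hφ0,
    ContinuousLinearMap.zero_apply] at h1
  exact emb_ne (by exact_mod_cast norm_ne_zero_iff.2 hv) h1

end Pool.Agent.Results.MP_84e5ad_an.OrbitIndependent
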